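import Pool.Agent.Q109.CP.All

/-!
# MP_2d2444_co: concentration of heights in random linear extensions of cluster posets

Full answer to Q1: the statement is true for all `m` and `a < b`.

The cluster poset has the elements `A_{i,j}`, `i < n`, `j < m` (indices start at `0`), the chains
`A_{i,0} < A_{i,1} < ... < A_{i,m-1}` and the identifications `A_{i,b} = A_{i+1,a}`; it has
`(m-1) n + 1` elements. A linear extension is described by the heights of the elements,
`h i j` = number of elements before `A_{i,j}`: the rows of `h` are strictly increasing, the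
values are smaller than `(m-1) n + 1`, `h i b = h (i+1) a`, and there are no other equalities
(so `h` is a bijection from the elements onto `{0, ..., (m-1) n}`).
The positions `a < b` in `Fin m` are the `a - 1` and `b - 1` of the problem, so
`α - 1 = a / (b - a)` and `β - 1 = (m - 1 - b) / (b - a)`.
-/

namespace Pool.Agent.Results.MP_2d2444_co.HeightConcentration

open Filter Topology Set

/-- `h` is the height function of a linear extension of the cluster poset with `n` chains of `m`
elements, positions `a` and `b` of successive chains being identified. -/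
def IsLinearExtension {n m : ℕ} (a b : Fin m) (h : Fin n → Fin m → ℕ) : Prop :=
  (∀ i, StrictMono (h i)) ∧
  (∀ i j, h i j < (m - 1) * n + 1) ∧
  (∀ i i' : Fin n, (i : ℕ) + 1 = i' → h i b = h i' a) ∧
  (∀ (i i' : Fin n) (j j' : Fin m), h i j = h i' j' →
    (i = i' ∧ j = j') ∨ ((i : ℕ) + 1 = i' ∧ j = b ∧ j' = a) ∨ ((i' : ℕ) + 1 = i ∧ j' = b ∧ j = a))

/-- The height of the distinguished element `X_i`, `0 ≤ i ≤ n`: `X_i = A_{i,a}` for `i < n` and
`X_n = A_{n-1,b}` (chains numbered from `0`). -/
def height {n m : ℕ} (a b : Fin m) (h : Fin n → Fin m → ℕ) (i : ℕ) : ℕ :=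
  if hi : i < n then h ⟨i, hi⟩ a else if hn : n - 1 < n then h ⟨n - 1, hn⟩ b else 0

/-- The regularised incomplete beta function with parameters `α = a / (b - a) + 1` and
`β = (m - 1 - b) / (b - a) + 1`. -/
noncomputable def g {m : ℕ} (a b : Fin m) (t : ℝ) : ℝ :=
  (∫ u in (0 : ℝ)..t, u ^ (((a : ℕ) : ℝ) / ((b : ℕ) - (a : ℕ) : ℝ)) *
      (1 - u) ^ (((m : ℝ) - 1 - ((b : ℕ) : ℝ)) / ((b : ℕ) - (a : ℕ) : ℝ))) /
  (∫ u in (0 : ℝ)..1, u ^ (((a : ℕ) : ℝ) / ((b : ℕ) - (a : ℕ) : ℝ)) *
      (1 - u) ^ (((m : ℝ) - 1 - ((b : ℕ) : ℝ)) / ((b : ℕ) - (a : ℕ) : ℝ)))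

/-- The inverse of `g` on `[0,1]`. -/
noncomputable def f {m : ℕ} (a b : Fin m) : ℝ → ℝ := Function.invFunOn (g a b) (Icc (0 : ℝ) 1)

/-- **Q1 is true.** `g` is a bijection of `[0,1]`, `f` its inverse, and for every `ε > 0` the
proportion of the linear extensions of the cluster poset with `n` chains in which every
distinguished element `X_i`, `0 ≤ i ≤ n`, has height within `ε |P_n|` of
`|P_n| f((i+1)/(n+2))` tends to `1` as `n → ∞`. -/
theorem result (m : ℕ) (a b : Fin m) (hab : a < b) :
    BijOn (g a b) (Icc (0 : ℝ) 1) (Icc 0 1) ∧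
    ∀ ε : ℝ, 0 < ε →
      Tendsto (fun n : ℕ =>
        (({h : Fin n → Fin m → ℕ | IsLinearExtension a b h ∧ ∀ i : ℕ, i ≤ n →
            |(height a b h i : ℝ) -
              (((m : ℝ) - 1) * n + 1) * f a b (((i : ℝ) + 1) / ((n : ℝ) + 2))| ≤
              ε * (((m : ℝ) - 1) * n + 1)}.ncard : ℕ) : ℝ) /
          (({h : Fin n → Fin m → ℕ | IsLinearExtension a b h}.ncard : ℕ) : ℝ)) atTop (𝓝 1) :=
  Q109.CP.all m a b hab

end Pool.Agent.Results.MP_2d2444_co.HeightConcentration
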